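import Pool.Agent.Helper29.MW.Base
import Pool.Agent.Helper29.TD.BFBasic

/-!
# The game with sets determines the truth of monadic second-order sentences
-/

set_option autoImplicit false

namespace Pool.Agent.Helper29.MW

open Pool.Agent.Helper20.Spectra Pool.Agent.Helper29.TD

section basic

/-! ### Symmetry -/

lemma swap_insert {M N : Type} (P : Set (M × N)) (x : M) (y : N) :
    (Prod.swap ⁻¹' (insert (x, y) P) : Set (N × M)) = insert (y, x) (Prod.swap ⁻¹' P) := by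
  ext ⟨a, b⟩
  simp only [Set.mem_preimage, Prod.swap_prod_mk, Set.mem_insert_iff, Prod.mk.injEq]
  exact or_congr ⟨fun h => ⟨h.2, h.1⟩, fun h => ⟨h.2, h.1⟩⟩ Iff.rfl

lemma piso_symm {S : Type} {ar : S → ℕ} {M N : Type} {I : Interp S ar M} {J : Interp S ar N}
    {P : Set (M × N)} (h : PIso I J P) : PIso J I (Prod.swap ⁻¹' P) := by
  refine ⟨fun p hp p' hp' => (h.1 _ hp _ hp').symm, fun s v hv => ?_⟩
  exact (h.2 s (fun i => (v i).swap) hv).symm

lemma bf_symm {S : Type} {ar : S → ℕ} {M N : Type} {I : Interp S ar M} {J : Interp S ar N}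
    {X : Set M} {Y : Set N} (q : ℕ) : ∀ {P : Set (M × N)}, BF I J X Y q P →
      BF J I Y X q (Prod.swap ⁻¹' P) := by
  induction q with
  | zero => exact fun h => piso_symm h
  | succ q ih =>
    rintro P ⟨hp, h1, h2⟩
    refine ⟨piso_symm hp, fun y hy => ?_, fun x hx => ?_⟩
    · obtain ⟨x, hx, h3⟩ := h2 y hy
      refine ⟨x, hx, ?_⟩
      rw [← swap_insert]
      exact ih h3
    · obtain ⟨y, hy, h3⟩ := h1 x hx
      refine ⟨y, hy, ?_⟩
      rw [← swap_insert]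
      exact ih h3

lemma MEq.symm : ∀ (n q : ℕ) {S : Type} {ar : S → ℕ} {M N : Type} {I : Interp S ar M}
    {J : Interp S ar N}, MEq n q I J → MEq n q J I := by
  intro n
  induction n with
  | zero =>
    intro q S ar M N I J h
    exact bf_symm q h
  | succ n ih =>
    intro q S ar M N I J h
    exact ⟨fun B => (h.2 B).imp fun A hA => ih q hA, fun A => (h.1 A).imp fun B hB => ih q hB⟩

/-! ### Reducts -/

/-- `I₀` is the reduct of `I₁` along `τ` -/
def IsRed {S₀ S₁ : Type} {ar₀ : S₀ → ℕ} {ar₁ : S₁ → ℕ} {M : Type} (τ : S₀ → S₁)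
    (h : ∀ s, ar₀ s = ar₁ (τ s)) (I₀ : Interp S₀ ar₀ M) (I₁ : Interp S₁ ar₁ M) : Prop :=
  ∀ (s : S₀) (v : Fin (ar₀ s) → M), I₀ s v ↔ I₁ (τ s) (fun i => v (Fin.cast (h s).symm i))

lemma bf_red {S₀ S₁ : Type} {ar₀ : S₀ → ℕ} {ar₁ : S₁ → ℕ} {M N : Type} (τ : S₀ → S₁)
    (h : ∀ s, ar₀ s = ar₁ (τ s)) {I₀ : Interp S₀ ar₀ M} {I₁ : Interp S₁ ar₁ M}
    {J₀ : Interp S₀ ar₀ N} {J₁ : Interp S₁ ar₁ N} (hI : IsRed τ h I₀ I₁) (hJ : IsRed τ h J₀ J₁)
    {X : Set M} {Y : Set N} (q : ℕ) : ∀ {P : Set (M × N)}, BF I₁ J₁ X Y q P →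
      BF I₀ J₀ X Y q P := by
  have h0 : ∀ {P : Set (M × N)}, PIso I₁ J₁ P → PIso I₀ J₀ P := by
    intro P hP
    refine ⟨hP.1, fun s v hv => ?_⟩
    rw [hI, hJ]
    exact hP.2 (τ s) (fun i => v (Fin.cast (h s).symm i)) fun i => hv _
  induction q with
  | zero => exact fun h => h0 h
  | succ q ih =>
    rintro P ⟨hp, h1, h2⟩
    exact ⟨h0 hp, fun x hx => (h1 x hx).imp fun y hy => ⟨hy.1, ih hy.2⟩,
      fun y hy => (h2 y hy).imp fun x hx => ⟨hx.1, ih hx.2⟩⟩

lemma exAr_map {S₀ S₁ : Type} {ar₀ : S₀ → ℕ} {ar₁ : S₁ → ℕ} (τ : S₀ → S₁)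
    (h : ∀ s, ar₀ s = ar₁ (τ s)) : ∀ s, exAr ar₀ s = exAr ar₁ (Option.map τ s)
  | none => rfl
  | some s => h s

lemma IsRed.exI {S₀ S₁ : Type} {ar₀ : S₀ → ℕ} {ar₁ : S₁ → ℕ} {M : Type} {τ : S₀ → S₁}
    {h : ∀ s, ar₀ s = ar₁ (τ s)} {I₀ : Interp S₀ ar₀ M} {I₁ : Interp S₁ ar₁ M}
    (hI : IsRed τ h I₀ I₁) (A : Set M) :
    IsRed (Option.map τ) (exAr_map τ h) (exI I₀ A) (exI I₁ A)
  | none, _ => Iff.rfl
  | some s, v => hI s v

lemma MEq.red : ∀ (n q : ℕ) {S₀ S₁ : Type} {ar₀ : S₀ → ℕ} {ar₁ : S₁ → ℕ} {M N : Type} (τ : S₀ → S₁)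
    (h : ∀ s, ar₀ s = ar₁ (τ s)) {I₀ : Interp S₀ ar₀ M} {I₁ : Interp S₁ ar₁ M}
    {J₀ : Interp S₀ ar₀ N} {J₁ : Interp S₁ ar₁ N}, IsRed τ h I₀ I₁ → IsRed τ h J₀ J₁ →
    MEq n q I₁ J₁ → MEq n q I₀ J₀ := by
  intro n
  induction n with
  | zero =>
    intro q S₀ S₁ ar₀ ar₁ M N τ h I₀ I₁ J₀ J₁ hI hJ he
    exact bf_red τ h hI hJ q he
  | succ n ih =>
    intro q S₀ S₁ ar₀ ar₁ M N τ h I₀ I₁ J₀ J₁ hI hJ he
    exact ⟨fun A => (he.1 A).imp fun B hB => ih q _ _ (hI.exI A) (hJ.exI B) hB,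
      fun B => (he.2 B).imp fun A hA => ih q _ _ (hI.exI A) (hJ.exI B) hA⟩

lemma MEq.pred (n q : ℕ) {S : Type} {ar : S → ℕ} {M N : Type} {I : Interp S ar M}
    {J : Interp S ar N} (h : MEq (n + 1) q I J) : MEq n q I J := by
  obtain ⟨B, hB⟩ := h.1 ∅
  exact MEq.red n q some (fun _ => rfl) (fun _ _ => Iff.rfl) (fun _ _ => Iff.rfl) hB

lemma MEq.mono_q : ∀ (n : ℕ) {q q' : ℕ} (_ : q' ≤ q) {S : Type} {ar : S → ℕ} {M N : Type}
    {I : Interp S ar M} {J : Interp S ar N}, MEq n q I J → MEq n q' I J := by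
  intro n
  induction n with
  | zero =>
    intro q q' hq S ar M N I J h
    exact BF.mono hq h
  | succ n ih =>
    intro q q' hq S ar M N I J h
    exact ⟨fun A => (h.1 A).imp fun B hB => ih hq hB, fun B => (h.2 B).imp fun A hA => ih hq hA⟩

lemma MEq.mono {n n' q q' : ℕ} (hn : n' ≤ n) (hq : q' ≤ q) {S : Type} {ar : S → ℕ} {M N : Type}
    {I : Interp S ar M} {J : Interp S ar N} (h : MEq n q I J) : MEq n' q' I J := by
  obtain ⟨d, rfl⟩ := Nat.exists_eq_add_of_le hn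
  clear hn
  induction d with
  | zero => exact MEq.mono_q _ hq h
  | succ d ih => exact ih (MEq.pred _ _ h)

end basic

/-! ### Marked elements and sets -/

/-- the arities after adding unary relations for elements and sets -/
abbrev xAr {S : Type} (ar : S → ℕ) (k m : ℕ) : S ⊕ (Fin k ⊕ Fin m) → ℕ := Sum.elim ar (fun _ => 1)

/-- the expansion by the elements `v` and the sets `V`, as unary relations -/
def xp {S : Type} {ar : S → ℕ} {M : Type} {k m : ℕ} (I : Interp S ar M) (v : Fin k → M)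
    (V : Fin m → Set M) : Interp (S ⊕ (Fin k ⊕ Fin m)) (xAr ar k m) M
  | Sum.inl s => fun u => I s u
  | Sum.inr (Sum.inl i) => fun u : Fin 1 → M => u 0 = v i
  | Sum.inr (Sum.inr j) => fun u : Fin 1 → M => u 0 ∈ V j

section

variable {S : Type} {ar : S → ℕ} {M N : Type} {k m : ℕ} {I : Interp S ar M} {J : Interp S ar N}
  {v : Fin k → M} {w : Fin k → N} {V : Fin m → Set M} {W : Fin m → Set N}

lemma piso_xp : ∀ (l : ℕ) (f : Fin l → Fin k) {P : Set (M × N)},
    BF (xp I v V) (xp J w W) Set.univ Set.univ l P →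
    ∃ P', P ⊆ P' ∧ (∀ i, (v (f i), w (f i)) ∈ P') ∧ PIso (xp I v V) (xp J w W) P' := by
  intro l
  induction l with
  | zero =>
    intro f P h
    exact ⟨P, subset_refl _, fun i => i.elim0, h⟩
  | succ l ih =>
    intro f P h
    obtain ⟨y, -, hy⟩ := h.2.1 (v (f 0)) trivial
    have h1 := (hy.piso.2 (Sum.inr (Sum.inl (f 0))) (fun _ => (v (f 0), y))
      (fun _ => Set.mem_insert _ _)).1 rfl
    have h2 : y = w (f 0) := h1
    subst h2
    obtain ⟨P', h3, h4, h5⟩ := ih (fun i => f i.succ) hy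
    refine ⟨P', (Set.subset_insert _ _).trans h3, fun i => ?_, h5⟩
    refine Fin.cases ?_ (fun i => h4 i) i
    exact h3 (Set.mem_insert _ _)

lemma atom_xp (h : BF (xp I v V) (xp J w W) Set.univ Set.univ k ∅) :
    PIso (xp I v V) (xp J w W) (prs v w) := by
  obtain ⟨P', -, h2, h3⟩ := piso_xp k id h
  have h4 : prs v w ⊆ P' := by
    rintro _ ⟨i, rfl⟩
    exact h2 i
  exact ⟨fun p hp p' hp' => h3.1 p (h4 hp) p' (h4 hp'),
    fun s u hu => h3.2 s u fun i => h4 (hu i)⟩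

end

/-- renaming: the new set variable `0` -/
def sτ (S : Type) (k m : ℕ) : S ⊕ (Fin k ⊕ Fin (m + 1)) → Option (S ⊕ (Fin k ⊕ Fin m))
  | Sum.inl s => some (Sum.inl s)
  | Sum.inr (Sum.inl i) => some (Sum.inr (Sum.inl i))
  | Sum.inr (Sum.inr j) => Fin.cases none (fun j => some (Sum.inr (Sum.inr j))) j

/-- renaming: the new element variable `0` -/
def eτ (S : Type) (k m : ℕ) : S ⊕ (Fin (k + 1) ⊕ Fin m) → Option (S ⊕ (Fin k ⊕ Fin m))
  | Sum.inl s => some (Sum.inl s)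
  | Sum.inr (Sum.inl i) => Fin.cases none (fun i => some (Sum.inr (Sum.inl i))) i
  | Sum.inr (Sum.inr j) => some (Sum.inr (Sum.inr j))

lemma sτ_ar {S : Type} (ar : S → ℕ) (k m : ℕ) : ∀ s, xAr ar k (m + 1) s =
    exAr (xAr ar k m) (sτ S k m s)
  | Sum.inl s => rfl
  | Sum.inr (Sum.inl i) => rfl
  | Sum.inr (Sum.inr j) => by
    refine Fin.cases ?_ (fun j => ?_) j
    · rfl
    · rfl

lemma eτ_ar {S : Type} (ar : S → ℕ) (k m : ℕ) : ∀ s, xAr ar (k + 1) m s =
    exAr (xAr ar k m) (eτ S k m s)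
  | Sum.inl s => rfl
  | Sum.inr (Sum.inl i) => by
    refine Fin.cases ?_ (fun j => ?_) i
    · rfl
    · rfl
  | Sum.inr (Sum.inr j) => rfl

section

variable {S : Type} {ar : S → ℕ} {M : Type} {k m : ℕ}

lemma red_set (I : Interp S ar M) (v : Fin k → M) (V : Fin m → Set M) (X : Set M) :
    IsRed (sτ S k m) (sτ_ar ar k m) (xp I v (Fin.cons X V)) (exI (xp I v V) X)
  | Sum.inl s, u => Iff.rfl
  | Sum.inr (Sum.inl i), u => Iff.rfl
  | Sum.inr (Sum.inr j), u => by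
    revert u
    refine Fin.cases ?_ (fun j => ?_) j
    · exact fun u => Iff.rfl
    · exact fun u => Iff.rfl

lemma red_elt (I : Interp S ar M) (v : Fin k → M) (V : Fin m → Set M) (x : M) :
    IsRed (eτ S k m) (eτ_ar ar k m) (xp I (Fin.cons x v) V) (exI (xp I v V) {x})
  | Sum.inl s, u => Iff.rfl
  | Sum.inr (Sum.inl i), u => by
    revert u
    refine Fin.cases ?_ (fun j => ?_) i
    · exact fun u => Iff.rfl
    · exact fun u => Iff.rfl
  | Sum.inr (Sum.inr j), u => Iff.rfl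

end

/-- a singleton is answered by a singleton -/
lemma singleton_of_meq {S : Type} {ar : S → ℕ} {M N : Type} {I : Interp S ar M} {J : Interp S ar N}
    {n q : ℕ} (hq : 2 ≤ q) {x : M} {B : Set N} (h : MEq n q (exI I {x}) (exI J B)) :
    ∃ y, B = {y} := by
  have h1 : BF (exI I {x}) (exI J B) Set.univ Set.univ 2 ∅ := MEq.mono (Nat.zero_le n) hq h
  obtain ⟨y, -, hy⟩ := h1.2.1 x trivial
  have h2 := (hy.piso.2 none (fun _ => (x, y)) (fun _ => Set.mem_insert _ _)).1 rfl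
  have h3 : y ∈ B := h2
  refine ⟨y, Set.Subset.antisymm (fun z hz => ?_) (by rintro _ rfl; exact h3)⟩
  obtain ⟨x', -, hx'⟩ := hy.2.2 z trivial
  have h4 := (hx'.2 none (fun _ => (x', z)) (fun _ => Set.mem_insert _ _)).2 hz
  have h5 : x' = x := h4
  exact (hx'.1 (x', z) (Set.mem_insert _ _) (x, y) (Set.mem_insert_of_mem _
    (Set.mem_insert _ _))).1 h5

theorem holds_xp {S : Type} {ar : S → ℕ} {k m : ℕ} (φ : MFm S ar k m) : ∃ n q : ℕ,
    ∀ (M N : Type) (I : Interp S ar M) (J : Interp S ar N) (v : Fin k → M) (w : Fin k → N)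
      (V : Fin m → Set M) (W : Fin m → Set N), MEq n q (xp I v V) (xp J w W) →
        (φ.Holds I v V ↔ φ.Holds J w W) := by
  induction φ with
  | @eq k m i j =>
    refine ⟨0, k, fun M N I J v w V W h => ?_⟩
    exact (atom_xp h).1 (v i, w i) ⟨i, rfl⟩ (v j, w j) ⟨j, rfl⟩
  | @rel k m s f =>
    refine ⟨0, k, fun M N I J v w V W h => ?_⟩
    exact (atom_xp h).2 (Sum.inl s) (fun i => (v (f i), w (f i))) fun i => ⟨f i, rfl⟩
  | @mem k m i j =>
    refine ⟨0, k, fun M N I J v w V W h => ?_⟩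
    exact (atom_xp h).2 (Sum.inr (Sum.inr j)) (fun _ => (v i, w i)) fun _ => ⟨i, rfl⟩
  | not φ ih =>
    obtain ⟨n, q, h⟩ := ih
    exact ⟨n, q, fun M N I J v w V W he => not_congr (h M N I J v w V W he)⟩
  | and φ ψ ih₁ ih₂ =>
    obtain ⟨n₁, q₁, h₁⟩ := ih₁
    obtain ⟨n₂, q₂, h₂⟩ := ih₂
    exact ⟨max n₁ n₂, max q₁ q₂, fun M N I J v w V W he => and_congr
      (h₁ M N I J v w V W (MEq.mono (le_max_left _ _) (le_max_left _ _) he))
      (h₂ M N I J v w V W (MEq.mono (le_max_right _ _) (le_max_right _ _) he))⟩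
  | @ex k m φ ih =>
    obtain ⟨n, q, h⟩ := ih
    have key : ∀ (M N : Type) (I : Interp S ar M) (J : Interp S ar N) (v : Fin k → M)
        (w : Fin k → N) (V : Fin m → Set M) (W : Fin m → Set N),
        MEq (n + 1) (max q 2) (xp I v V) (xp J w W) →
        (∃ x, φ.Holds I (Fin.cons x v) V) → ∃ y, φ.Holds J (Fin.cons y w) W := by
      rintro M N I J v w V W he ⟨x, hx⟩
      obtain ⟨B, hB⟩ := he.1 {x}
      obtain ⟨y, rfl⟩ := singleton_of_meq (le_max_right _ _) hB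
      refine ⟨y, (h M N I J _ _ V W ?_).1 hx⟩
      exact MEq.red n q (eτ S k m) (eτ_ar ar k m) (red_elt I v V x) (red_elt J w W y)
        (MEq.mono_q n (le_max_left _ _) hB)
    exact ⟨n + 1, max q 2, fun M N I J v w V W he =>
      ⟨key M N I J v w V W he, key N M J I w v W V (MEq.symm _ _ he)⟩⟩
  | @exSet k m φ ih =>
    obtain ⟨n, q, h⟩ := ih
    have key : ∀ (M N : Type) (I : Interp S ar M) (J : Interp S ar N) (v : Fin k → M)
        (w : Fin k → N) (V : Fin m → Set M) (W : Fin m → Set N),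
        MEq (n + 1) q (xp I v V) (xp J w W) →
        (∃ X, φ.Holds I v (Fin.cons X V)) → ∃ Y, φ.Holds J w (Fin.cons Y W) := by
      rintro M N I J v w V W he ⟨X, hX⟩
      obtain ⟨Y, hY⟩ := he.1 X
      refine ⟨Y, (h M N I J _ _ _ _ ?_).1 hX⟩
      exact MEq.red n q (sτ S k m) (sτ_ar ar k m) (red_set I v V X) (red_set J w W Y) hY
    exact ⟨n + 1, q, fun M N I J v w V W he =>
      ⟨key M N I J v w V W he, key N M J I w v W V (MEq.symm _ _ he)⟩⟩

/-- the game with sets determines the truth of sentences -/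
theorem msat_meq {S : Type} {ar : S → ℕ} (φ : MFm S ar 0 0) : ∃ n q : ℕ, ∀ (M N : Type)
    (I : Interp S ar M) (J : Interp S ar N), MEq n q I J → (MSat I φ ↔ MSat J φ) := by
  obtain ⟨n, q, h⟩ := holds_xp φ
  refine ⟨n, q, fun M N I J he => h M N I J _ _ _ _ ?_⟩
  refine MEq.red n q (fun s => match s with
    | Sum.inl s => s
    | Sum.inr (Sum.inl i) => i.elim0
    | Sum.inr (Sum.inr j) => j.elim0) ?_ ?_ ?_ he
  · rintro (s | i | j)
    · rfl
    · exact i.elim0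
    · exact j.elim0
  · rintro (s | i | j) u
    · exact Iff.rfl
    · exact i.elim0
    · exact j.elim0
  · rintro (s | i | j) u
    · exact Iff.rfl
    · exact i.elim0
    · exact j.elim0

/-! ### Isomorphisms -/

theorem holds_iso {S : Type} {ar : S → ℕ} {M N : Type} (I : Interp S ar M) (e : M ≃ N) {k m : ℕ}
    (φ : MFm S ar k m) : ∀ (v : Fin k → M) (V : Fin m → Set M), φ.Holds I v V ↔
      φ.Holds (fun s u => I s (fun i => e.symm (u i)) : Interp S ar N) (fun i => e (v i))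
        (fun j => e '' V j) := by
  induction φ with
  | eq i j => exact fun v V => e.injective.eq_iff.symm
  | rel s f =>
    intro v V
    change I s (fun i => v (f i)) ↔ I s (fun i => e.symm (e (v (f i))))
    simp only [e.symm_apply_apply]
  | mem i j =>
    intro v V
    exact (e.injective.mem_set_image).symm
  | not φ ih => exact fun v V => not_congr (ih v V)
  | and φ ψ ih₁ ih₂ => exact fun v V => and_congr (ih₁ v V) (ih₂ v V)
  | @ex k m φ ih =>
    intro v V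
    have h1 : ∀ x : M, (fun i => e ((Fin.cons x v : Fin (k + 1) → M) i)) =
        (Fin.cons (e x) (fun i => e (v i)) : Fin (k + 1) → N) := by
      intro x
      funext i
      refine Fin.cases ?_ (fun i => ?_) i
      · rfl
      · rfl
    constructor
    · rintro ⟨x, hx⟩
      refine ⟨e x, ?_⟩
      have h2 := (ih _ _).1 hx
      rw [h1] at h2
      exact h2
    · rintro ⟨y, hy⟩
      refine ⟨e.symm y, (ih _ _).2 ?_⟩
      rw [h1, e.apply_symm_apply]
      exact hy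
  | @exSet k m φ ih =>
    intro v V
    have h1 : ∀ X : Set M, (fun j => e '' ((Fin.cons X V : Fin (m + 1) → Set M) j)) =
        (Fin.cons (e '' X) (fun j => e '' V j) : Fin (m + 1) → Set N) := by
      intro X
      funext j
      refine Fin.cases ?_ (fun i => ?_) j
      · rfl
      · rfl
    constructor
    · rintro ⟨X, hX⟩
      refine ⟨e '' X, ?_⟩
      have h2 := (ih _ _).1 hX
      rw [h1] at h2
      exact h2
    · rintro ⟨Y, hY⟩
      refine ⟨e.symm '' Y, (ih _ _).2 ?_⟩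
      rw [h1, e.image_symm_image]
      exact hY

theorem MSat.iso {S : Type} {ar : S → ℕ} {M N : Type} (I : Interp S ar M) (e : M ≃ N)
    (φ : MFm S ar 0 0) :
    MSat I φ ↔ MSat (fun s v => I s (fun i => e.symm (v i)) : Interp S ar N) φ := by
  unfold MSat
  rw [holds_iso I e φ]
  have h1 : (fun i => e ((Fin.elim0 : Fin 0 → M) i)) = (Fin.elim0 : Fin 0 → N) := by
    funext i
    exact i.elim0
  have h2 : (fun j => e '' ((Fin.elim0 : Fin 0 → Set M) j)) = (Fin.elim0 : Fin 0 → Set N) := by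
    funext i
    exact i.elim0
  rw [h1, h2]

end Pool.Agent.Helper29.MW
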