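import Pool.Agent.Helper29.MW.Eq
import Pool.Agent.Helper29.TW.TyJoin
import Pool.Agent.Helper29.TW.TyForget
import Pool.Agent.Helper29.TD.TyCard

/-!
# Monadic second-order types of structures with sources are compatible with the operations
-/

set_option autoImplicit false

namespace Pool.Agent.Helper29.MW

open Pool.Agent.Helper20.Spectra Pool.Agent.Helper29.TD

/-! ### Expansions -/

lemma exI_img {S : Type} {ar : S → ℕ} {M N : Type} (f : M → N) (J : Interp S ar M) (C : Set M) :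
    exI (TW.img f J) (f '' C) = TW.img f (exI J C) := by
  funext s
  cases s with
  | none =>
    funext v
    change Fin 1 → N at v
    apply propext
    change v 0 ∈ f '' C ↔ ∃ u : Fin 1 → M, u 0 ∈ C ∧ v = fun i => f (u i)
    constructor
    · rintro ⟨x, hx, hv⟩
      refine ⟨fun _ => x, hx, ?_⟩
      funext i
      rw [Subsingleton.elim i 0, hv]
    · rintro ⟨u, hu, rfl⟩
      exact ⟨u 0, hu, rfl⟩
  | some s => rfl

lemma exI_or {S : Type} {ar : S → ℕ} {M : Type} (R₁ R₂ : Interp S ar M) (A₁ A₂ : Set M) :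
    exI (fun s v => R₁ s v ∨ R₂ s v) (A₁ ∪ A₂) = fun s v => exI R₁ A₁ s v ∨ exI R₂ A₂ s v := by
  funext s
  cases s with
  | none => rfl
  | some s => rfl

section

variable {K : ℕ} {V V₁ V₂ : Type}

lemma exI_jn {S : Type} {ar : S → ℕ} (J₁ : Interp S ar (Fin K ⊕ V₁)) (J₂ : Interp S ar (Fin K ⊕ V₂))
    (A₁ : Set (Fin K ⊕ V₁)) (A₂ : Set (Fin K ⊕ V₂)) :
    exI (TW.jn J₁ J₂) (Sum.map id Sum.inl '' A₁ ∪ Sum.map id Sum.inr '' A₂) =
      TW.jn (exI J₁ A₁) (exI J₂ A₂) := by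
  have h1 := exI_or (TW.img (Sum.map id Sum.inl) J₁ : Interp S ar (Fin K ⊕ (V₁ ⊕ V₂)))
    (TW.img (Sum.map id Sum.inr) J₂) (Sum.map id Sum.inl '' A₁) (Sum.map id Sum.inr '' A₂)
  rw [exI_img, exI_img] at h1
  exact h1

lemma mem_mk_inl {α : Set (Fin K)} {A : Set V} {b : Fin K} :
    (Sum.inl b : Fin K ⊕ V) ∈ TW.mk α A ↔ b ∈ α := Iff.rfl

lemma mem_mk_inr {α : Set (Fin K)} {A : Set V} {x : V} :
    (Sum.inr x : Fin K ⊕ V) ∈ TW.mk α A ↔ x ∈ A := Iff.rfl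

lemma split_set {B₁ B₂ : Finset (Fin K)} {A : Set (Fin K ⊕ (V₁ ⊕ V₂))}
    (hA : A ⊆ TW.mk (↑(B₁ ∪ B₂)) Set.univ) :
    A = Sum.map id Sum.inl '' (Sum.map id Sum.inl ⁻¹' A ∩ TW.mk (↑B₁) Set.univ) ∪
      Sum.map id Sum.inr '' (Sum.map id Sum.inr ⁻¹' A ∩ TW.mk (↑B₂) Set.univ) := by
  ext x
  constructor
  · intro hx
    rcases x with b | z | z
    · have h1 : b ∈ B₁ ∪ B₂ := hA hx
      rcases Finset.mem_union.1 h1 with h2 | h2
      · exact Or.inl ⟨Sum.inl b, ⟨hx, h2⟩, rfl⟩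
      · exact Or.inr ⟨Sum.inl b, ⟨hx, h2⟩, rfl⟩
    · exact Or.inl ⟨Sum.inr z, ⟨hx, trivial⟩, rfl⟩
    · exact Or.inr ⟨Sum.inr z, ⟨hx, trivial⟩, rfl⟩
  · rintro (⟨y, ⟨hy, -⟩, rfl⟩ | ⟨y, ⟨hy, -⟩, rfl⟩)
    · exact hy
    · exact hy

lemma join_set {B₁ B₂ : Finset (Fin K)} {A₁ : Set (Fin K ⊕ V₁)} {A₂ : Set (Fin K ⊕ V₂)}
    (h₁ : A₁ ⊆ TW.mk (↑B₁) Set.univ) (h₂ : A₂ ⊆ TW.mk (↑B₂) Set.univ) :
    (Sum.map id Sum.inl '' A₁ ∪ Sum.map id Sum.inr '' A₂ : Set (Fin K ⊕ (V₁ ⊕ V₂))) ⊆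
      TW.mk (↑(B₁ ∪ B₂)) Set.univ := by
  rintro _ (⟨y, hy, rfl⟩ | ⟨y, hy, rfl⟩)
  · rcases y with b | z
    · exact Finset.mem_union_left _ (h₁ hy)
    · exact trivial
  · rcases y with b | z
    · exact Finset.mem_union_right _ (h₂ hy)
    · exact trivial

end

lemma set_eq_iff {α : Type} {ι κ : Type} {P : ι → Prop} {Q : κ → Prop} (f : ι → α) (g : κ → α) :
    ({t | ∃ a, P a ∧ f a = t} : Set α) = {t | ∃ b, Q b ∧ g b = t} ↔
      (∀ a, P a → ∃ b, Q b ∧ f a = g b) ∧ ∀ b, Q b → ∃ a, P a ∧ f a = g b := by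
  constructor
  · intro h
    refine ⟨fun a ha => ?_, fun b hb => ?_⟩
    · have h1 : f a ∈ {t | ∃ b, Q b ∧ g b = t} := h ▸ ⟨a, ha, rfl⟩
      obtain ⟨b, hb, e⟩ := h1
      exact ⟨b, hb, e.symm⟩
    · have h1 : g b ∈ {t | ∃ a, P a ∧ f a = t} := h.symm ▸ ⟨b, hb, rfl⟩
      obtain ⟨a, ha, e⟩ := h1
      exact ⟨a, ha, e⟩
  · rintro ⟨h1, h2⟩
    ext t
    constructor
    · rintro ⟨a, ha, rfl⟩
      obtain ⟨b, hb, e⟩ := h1 a ha
      exact ⟨b, hb, e.symm⟩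
    · rintro ⟨b, hb, rfl⟩
      obtain ⟨a, ha, e⟩ := h2 b hb
      exact ⟨a, ha, e⟩

lemma mty_succ {n q : ℕ} {S : Type} {ar : S → ℕ} {K : ℕ} {V V' : Type} {B B' : Finset (Fin K)}
    {J : Interp S ar (Fin K ⊕ V)} {J' : Interp S ar (Fin K ⊕ V')} :
    mty (n + 1) q B J = mty (n + 1) q B' J' ↔
      (∀ A, A ⊆ TW.mk (↑B) Set.univ → ∃ A', A' ⊆ TW.mk (↑B') Set.univ ∧
        mty n q B (exI J A) = mty n q B' (exI J' A')) ∧
      ∀ A', A' ⊆ TW.mk (↑B') Set.univ → ∃ A, A ⊆ TW.mk (↑B) Set.univ ∧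
        mty n q B (exI J A) = mty n q B' (exI J' A') :=
  set_eq_iff (fun A => mty n q B (exI J A)) fun A' => mty n q B' (exI J' A')

theorem mty_jn (n q : ℕ) : ∀ {S : Type} {ar : S → ℕ} {K : ℕ} {V₁ V₂ V₁' V₂' : Type}
    {B₁ B₂ B₁' B₂' : Finset (Fin K)}
    {J₁ : Interp S ar (Fin K ⊕ V₁)} {J₁' : Interp S ar (Fin K ⊕ V₁')}
    {J₂ : Interp S ar (Fin K ⊕ V₂)} {J₂' : Interp S ar (Fin K ⊕ V₂')},
    mty n q B₁ J₁ = mty n q B₁' J₁' → mty n q B₂ J₂ = mty n q B₂' J₂' →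
    mty n q (B₁ ∪ B₂) (TW.jn J₁ J₂) = mty n q (B₁' ∪ B₂') (TW.jn J₁' J₂') := by
  induction n with
  | zero =>
    intro S ar K V₁ V₂ V₁' V₂' B₁ B₂ B₁' B₂' J₁ J₁' J₂ J₂' h₁ h₂
    exact TW.ty_jn q h₁ h₂
  | succ n ih =>
    have key : ∀ {S : Type} {ar : S → ℕ} {K : ℕ} {V₁ V₂ V₁' V₂' : Type}
        {B₁ B₂ B₁' B₂' : Finset (Fin K)}
        {J₁ : Interp S ar (Fin K ⊕ V₁)} {J₁' : Interp S ar (Fin K ⊕ V₁')}
        {J₂ : Interp S ar (Fin K ⊕ V₂)} {J₂' : Interp S ar (Fin K ⊕ V₂')},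
        mty (n + 1) q B₁ J₁ = mty (n + 1) q B₁' J₁' → mty (n + 1) q B₂ J₂ = mty (n + 1) q B₂' J₂' →
        ∀ A, A ⊆ TW.mk (↑(B₁ ∪ B₂)) Set.univ → ∃ A', A' ⊆ TW.mk (↑(B₁' ∪ B₂')) Set.univ ∧
          mty n q (B₁ ∪ B₂) (exI (TW.jn J₁ J₂) A) = mty n q (B₁' ∪ B₂') (exI (TW.jn J₁' J₂') A') := by
      intro S ar K V₁ V₂ V₁' V₂' B₁ B₂ B₁' B₂' J₁ J₁' J₂ J₂' h₁ h₂ A hA
      obtain ⟨A₁', hA₁, e₁⟩ := (mty_succ.1 h₁).1
        (Sum.map id Sum.inl ⁻¹' A ∩ TW.mk (↑B₁) Set.univ) Set.inter_subset_right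
      obtain ⟨A₂', hA₂, e₂⟩ := (mty_succ.1 h₂).1
        (Sum.map id Sum.inr ⁻¹' A ∩ TW.mk (↑B₂) Set.univ) Set.inter_subset_right
      refine ⟨_, join_set hA₁ hA₂, ?_⟩
      have h3 : exI (TW.jn J₁ J₂) A =
          TW.jn (exI J₁ (Sum.map id Sum.inl ⁻¹' A ∩ TW.mk (↑B₁) Set.univ))
            (exI J₂ (Sum.map id Sum.inr ⁻¹' A ∩ TW.mk (↑B₂) Set.univ)) := by
        rw [← exI_jn, ← split_set hA]
      rw [exI_jn, h3]
      exact ih e₁ e₂
    intro S ar K V₁ V₂ V₁' V₂' B₁ B₂ B₁' B₂' J₁ J₁' J₂ J₂' h₁ h₂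
    exact mty_succ.2 ⟨key h₁ h₂, fun A' hA' => (key h₁.symm h₂.symm A' hA').imp
      fun A hA => ⟨hA.1, hA.2.symm⟩⟩

section

variable {K : ℕ} {V : Type}

lemma fg_split (a : Fin K) {B : Finset (Fin K)} {A : Set (Fin K ⊕ Option V)}
    (hA : A ⊆ TW.mk (↑(B.erase a)) Set.univ) : TW.fg a '' (TW.fg a ⁻¹' A) = A := by
  apply Set.image_preimage_eq_of_subset
  intro x hx
  rcases x with b | z
  · have h1 : b ∈ B.erase a := hA hx
    have h2 : b ≠ a := (Finset.mem_erase.1 h1).1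
    exact ⟨Sum.inl b, if_neg h2⟩
  · cases z with
    | none => exact ⟨Sum.inl a, if_pos rfl⟩
    | some z => exact ⟨Sum.inr z, rfl⟩

lemma fg_pre (a : Fin K) {B : Finset (Fin K)} (ha : a ∈ B) {A : Set (Fin K ⊕ Option V)}
    (hA : A ⊆ TW.mk (↑(B.erase a)) Set.univ) :
    (TW.fg a ⁻¹' A : Set (Fin K ⊕ V)) ⊆ TW.mk (↑B) Set.univ := by
  intro x hx
  rcases x with b | z
  · by_cases hb : b = a
    · subst hb
      exact ha
    · have h1 : (TW.fg a (Sum.inl b) : Fin K ⊕ Option V) = Sum.inl b := if_neg hb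
      have h2 : (TW.fg a (Sum.inl b) : Fin K ⊕ Option V) ∈ A := hx
      rw [h1] at h2
      have h3 : b ∈ B.erase a := hA h2
      exact (Finset.mem_erase.1 h3).2
  · exact trivial

lemma fg_img (a : Fin K) {B : Finset (Fin K)} {C : Set (Fin K ⊕ V)}
    (hC : C ⊆ TW.mk (↑B) Set.univ) :
    (TW.fg a '' C : Set (Fin K ⊕ Option V)) ⊆ TW.mk (↑(B.erase a)) Set.univ := by
  rintro _ ⟨x, hx, rfl⟩
  rcases x with b | z
  · by_cases hb : b = a
    · have h1 : (TW.fg a (Sum.inl b) : Fin K ⊕ Option V) = Sum.inr none := if_pos hb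
      rw [h1]
      exact trivial
    · have h1 : (TW.fg a (Sum.inl b) : Fin K ⊕ Option V) = Sum.inl b := if_neg hb
      rw [h1]
      exact Finset.mem_erase.2 ⟨hb, hC hx⟩
  · exact trivial

end

theorem mty_fg (n q : ℕ) : ∀ {S : Type} {ar : S → ℕ} {K : ℕ} {V V' : Type} (a : Fin K)
    {B B' : Finset (Fin K)} (_ : a ∈ B) (_ : a ∈ B')
    {J : Interp S ar (Fin K ⊕ V)} {J' : Interp S ar (Fin K ⊕ V')},
    mty n q B J = mty n q B' J' →
    mty n q (B.erase a) (TW.img (TW.fg a) J) = mty n q (B'.erase a) (TW.img (TW.fg a) J') := by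
  induction n with
  | zero =>
    intro S ar K V V' a B B' _ _ J J' h
    exact TW.ty_fg q a h
  | succ n ih =>
    have key : ∀ {S : Type} {ar : S → ℕ} {K : ℕ} {V V' : Type} (a : Fin K)
        {B B' : Finset (Fin K)} (_ : a ∈ B) (_ : a ∈ B')
        {J : Interp S ar (Fin K ⊕ V)} {J' : Interp S ar (Fin K ⊕ V')},
        mty (n + 1) q B J = mty (n + 1) q B' J' →
        ∀ A, A ⊆ TW.mk (↑(B.erase a)) Set.univ → ∃ A', A' ⊆ TW.mk (↑(B'.erase a)) Set.univ ∧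
          mty n q (B.erase a) (exI (TW.img (TW.fg a) J) A) =
            mty n q (B'.erase a) (exI (TW.img (TW.fg a) J') A') := by
      intro S ar K V V' a B B' ha ha' J J' h A hA
      obtain ⟨C', hC', e⟩ := (mty_succ.1 h).1 (TW.fg a ⁻¹' A) (fg_pre a ha hA)
      refine ⟨_, fg_img a hC', ?_⟩
      have h3 : exI (TW.img (TW.fg a) J) A = TW.img (TW.fg a) (exI J (TW.fg a ⁻¹' A)) := by
        rw [← exI_img, fg_split a hA]
      rw [exI_img, h3]
      exact ih a ha ha' e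
    intro S ar K V V' a B B' ha ha' J J' h
    exact mty_succ.2 ⟨key a ha ha' h, fun A' hA' => (key a ha' ha h.symm A' hA').imp
      fun A hA => ⟨hA.1, hA.2.symm⟩⟩

/-! ### The number of types -/

instance finite_MTy (n : ℕ) : ∀ {S : Type} [Finite S] {ar : S → ℕ} (q K : ℕ),
    Finite (MTy n S ar q K) := by
  induction n with
  | zero =>
    intro S _ ar q K
    exact finite_Ty q K
  | succ n ih =>
    intro S _ ar q K
    have := ih (S := Option S) (ar := exAr ar) q K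
    change Finite (Set (MTy n (Option S) (exAr ar) q K))
    infer_instance

lemma card_set (α : Type) [Finite α] : Nat.card (Set α) = 2 ^ Nat.card α := by
  have h1 : Nat.card (Set α) = Nat.card (α → Prop) := rfl
  have h2 : Nat.card Prop = 2 := by
    rw [Nat.card_eq_fintype_card]
    rfl
  rw [h1, Nat.card_fun, h2]

theorem card_MTy (n q : ℕ) : ∀ (S : Type) [Finite S] (ar : S → ℕ),
    Tow (fun K => Nat.card (MTy n S ar q K)) := by
  induction n with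
  | zero =>
    intro S _ ar
    exact card_Ty S ar q
  | succ n ih =>
    intro S _ ar
    have h1 : (fun K => Nat.card (MTy (n + 1) S ar q K)) =
        fun K => 2 ^ Nat.card (MTy n (Option S) (exAr ar) q K) := by
      funext K
      exact card_set (MTy n (Option S) (exAr ar) q K)
    rw [h1]
    exact (ih (Option S) (exAr ar)).two_pow

/-! ### Types and the game on the inner elements -/

lemma bf_comap {S : Type} {ar : S → ℕ} {M N M₀ N₀ : Type} {I : Interp S ar M} {J : Interp S ar N}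
    {f : M₀ → M} {g : N₀ → N} (hf : Function.Injective f) (hg : Function.Injective g) (q : ℕ) :
    ∀ {P : Set (M × N)}, BF I J (Set.range f) (Set.range g) q P →
      BF (fun s v => I s (fun i => f (v i)) : Interp S ar M₀)
        (fun s v => J s (fun i => g (v i)) : Interp S ar N₀) Set.univ Set.univ q
        {p | (f p.1, g p.2) ∈ P} := by
  have h0 : ∀ {P : Set (M × N)}, PIso I J P →
      PIso (fun s v => I s (fun i => f (v i)) : Interp S ar M₀)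
        (fun s v => J s (fun i => g (v i)) : Interp S ar N₀) {p | (f p.1, g p.2) ∈ P} := by
    intro P hP
    refine ⟨fun p hp p' hp' => ?_, fun s v hv => ?_⟩
    · rw [← hf.eq_iff, ← hg.eq_iff]
      exact hP.1 _ hp _ hp'
    · exact hP.2 s (fun i => (f (v i).1, g (v i).2)) hv
  have h3 : ∀ {P : Set (M × N)} (x : M₀) (y : N₀),
      {p : M₀ × N₀ | (f p.1, g p.2) ∈ insert (f x, g y) P} =
        insert (x, y) {p : M₀ × N₀ | (f p.1, g p.2) ∈ P} := by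
    intro P x y
    ext ⟨a, b⟩
    simp only [Set.mem_ofPred_eq, Set.mem_insert_iff, Prod.mk.injEq, hf.eq_iff, hg.eq_iff]
  induction q with
  | zero => exact fun h => h0 h
  | succ q ih =>
    rintro P ⟨hp, h1, h2⟩
    refine ⟨h0 hp, fun x _ => ?_, fun y _ => ?_⟩
    · obtain ⟨_, ⟨y, rfl⟩, hy⟩ := h1 (f x) ⟨x, rfl⟩
      refine ⟨y, trivial, ?_⟩
      rw [← h3]
      exact ih hy
    · obtain ⟨_, ⟨x, rfl⟩, hx⟩ := h2 (g y) ⟨y, rfl⟩
      refine ⟨x, trivial, ?_⟩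
      rw [← h3]
      exact ih hx

lemma inn_exI {S : Type} {ar : S → ℕ} {K : ℕ} {V : Type} (J : Interp S ar (Fin K ⊕ V))
    (A : Set (Fin K ⊕ V)) : TW.inn (exI J A) = exI (TW.inn J) (Sum.inr ⁻¹' A) := by
  funext s
  cases s with
  | none => rfl
  | some s => rfl

theorem meq_of_mty (n q : ℕ) : ∀ {S : Type} {ar : S → ℕ} {K : ℕ} {V V' : Type}
    {B B' : Finset (Fin K)} {J : Interp S ar (Fin K ⊕ V)} {J' : Interp S ar (Fin K ⊕ V')},
    mty n q B J = mty n q B' J' → MEq n q (TW.inn J) (TW.inn J') := by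
  induction n with
  | zero =>
    intro S ar K V V' B B' J J' h
    have h1 : TW.ty q J = TW.ty q J' := h
    have h2 := (tp_eq_iff q _ _).1 h1
    exact BF.anti (Set.empty_subset _) (bf_comap Sum.inr_injective Sum.inr_injective q h2)
  | succ n ih =>
    have key : ∀ {S : Type} {ar : S → ℕ} {K : ℕ} {V V' : Type}
        {B B' : Finset (Fin K)} {J : Interp S ar (Fin K ⊕ V)} {J' : Interp S ar (Fin K ⊕ V')},
        mty (n + 1) q B J = mty (n + 1) q B' J' → ∀ A : Set V, ∃ A' : Set V',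
          MEq n q (exI (TW.inn J) A) (exI (TW.inn J') A') := by
      intro S ar K V V' B B' J J' h A
      obtain ⟨C, -, e⟩ := (mty_succ.1 h).1 (Sum.inr '' A) (by
        rintro _ ⟨x, -, rfl⟩
        exact trivial)
      have h1 := ih e
      rw [inn_exI, inn_exI, Set.preimage_image_eq _ Sum.inr_injective] at h1
      exact ⟨_, h1⟩
    intro S ar K V V' B B' J J' h
    exact ⟨key h, fun A' => (key h.symm A').imp fun A hA => MEq.symm n q hA⟩

end Pool.Agent.Helper29.MW
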