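import Pool.Agent.Helper29.MW.Defs
import Pool.Agent.Helper29.TW.Base
import Pool.Agent.Helper29.CW.Base

/-!
# Monadic second-order types: auxiliary definitions

`exI I A` expands the structure `(M, I)` by the set `A`.  `MEq n q I I'` is the back-and-forth
equivalence in which first `n` sets are chosen and then `q` elements.  `mty n q B J` is the type of a
structure with sources, where the sets are subsets of the active sources `B` and the inner elements;
`mlty n q J l` is the type of a labelled structure.
-/

set_option autoImplicit false

namespace Pool.Agent.Helper29.MW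

open Pool.Agent.Helper20.Spectra Pool.Agent.Helper29.TD

/-- the arities after adding a unary relation -/
def exAr {S : Type} (ar : S → ℕ) : Option S → ℕ
  | none => 1
  | some s => ar s

/-- the expansion of an interpretation by the set `A` -/
def exI {S : Type} {ar : S → ℕ} {M : Type} (I : Interp S ar M) (A : Set M) :
    Interp (Option S) (exAr ar) M
  | none => fun v : Fin 1 → M => v 0 ∈ A
  | some s => fun v => I s v

/-- first `n` sets are chosen, then `q` elements -/
def MEq : (n q : ℕ) → {S : Type} → {ar : S → ℕ} → {M N : Type} → Interp S ar M → Interp S ar N → Prop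
  | 0, q, _, _, _, _, I, J => BF I J Set.univ Set.univ q ∅
  | n + 1, q, _, _, _, _, I, J => (∀ A, ∃ B, MEq n q (exI I A) (exI J B)) ∧
      ∀ B, ∃ A, MEq n q (exI I A) (exI J B)

/-- monadic second-order types of `k` elements -/
def MTy : (n : ℕ) → (S : Type) → (ar : S → ℕ) → (q k : ℕ) → Type
  | 0, S, ar, q, k => Ty S ar q k
  | n + 1, S, ar, q, k => Set (MTy n (Option S) (exAr ar) q k)

/-- the monadic second-order type of the sources; the sets are subsets of the active sources and the inner
elements -/
def mty : (n q : ℕ) → {S : Type} → {ar : S → ℕ} → {K : ℕ} → {V : Type} → Finset (Fin K) →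
    Interp S ar (Fin K ⊕ V) → MTy n S ar q K
  | 0, q, _, _, _, _, _, J => TW.ty q J
  | n + 1, q, _, _, _, _, B, J =>
      {t | ∃ A : Set (Fin _ ⊕ _), A ⊆ TW.mk (↑B) Set.univ ∧ mty n q B (exI J A) = t}

/-- monadic second-order types of labelled structures -/
def MLTy : (n : ℕ) → (S : Type) → (ar : S → ℕ) → (L : Type) → (q : ℕ) → Type
  | 0, S, ar, L, q => Ty (S ⊕ L) (Sum.elim ar (fun _ => 1)) q 0
  | n + 1, S, ar, L, q => Set (MLTy n (Option S) (exAr ar) L q)

/-- the monadic second-order type of a labelled structure -/
def mlty : (n q : ℕ) → {S : Type} → {ar : S → ℕ} → {L : Type} → {V : Type} →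
    Interp S ar V → (V → L) → MLTy n S ar L q
  | 0, q, _, _, _, _, J, l => CW.lty q J l
  | n + 1, q, _, _, _, _, J, l => {t | ∃ A : Set _, mlty n q (exI J A) l = t}

end Pool.Agent.Helper29.MW
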