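import Pool.Agent.Helper29.CW.Width

/-!
# Spectra of monadic second-order sentences whose models have small width: definitions
-/

set_option autoImplicit false

namespace Pool.Agent.Helper29.MW

open Pool.Agent.Helper20.Spectra Pool.Agent.Helper29.TD Pool.Agent.Helper29.CW

/-- The monadic second-order formulas in the relation symbols `S` with the arities `ar`:
`MFm S ar k m` has the `k` free element variables `0, ..., k - 1` and the `m` free set variables
`0, ..., m - 1`. -/
inductive MFm (S : Type) (ar : S → ℕ) : ℕ → ℕ → Type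
  | eq {k m : ℕ} (i j : Fin k) : MFm S ar k m
  | rel {k m : ℕ} (s : S) (f : Fin (ar s) → Fin k) : MFm S ar k m
  | mem {k m : ℕ} (i : Fin k) (j : Fin m) : MFm S ar k m
  | not {k m : ℕ} (φ : MFm S ar k m) : MFm S ar k m
  | and {k m : ℕ} (φ ψ : MFm S ar k m) : MFm S ar k m
  | ex {k m : ℕ} (φ : MFm S ar (k + 1) m) : MFm S ar k m
  | exSet {k m : ℕ} (φ : MFm S ar k (m + 1)) : MFm S ar k m

/-- Truth of `φ` in the structure `(M, I)`: `eq i j` says that the elements `i` and `j` are equal,
`rel s f` that the tuple of the elements `f 0, f 1, ...` is in the relation `s`, `mem i j` that element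
`i` is in set `j`, `ex` quantifies a new element variable `0` over `M`, and `exSet` a new set variable
`0` over all subsets of `M`. -/
def MFm.Holds {S : Type} {ar : S → ℕ} {M : Type} (I : Interp S ar M) :
    {k m : ℕ} → MFm S ar k m → (Fin k → M) → (Fin m → Set M) → Prop
  | _, _, .eq i j, v, _ => v i = v j
  | _, _, .rel s f, v, _ => I s (fun i => v (f i))
  | _, _, .mem i j, v, V => v i ∈ V j
  | _, _, .not φ, v, V => ¬ φ.Holds I v V
  | _, _, .and φ ψ, v, V => φ.Holds I v V ∧ ψ.Holds I v V
  | _, _, .ex φ, v, V => ∃ x : M, φ.Holds I (Fin.cons x v) V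
  | _, _, .exSet φ, v, V => ∃ X : Set M, φ.Holds I v (Fin.cons X V)

/-- the monadic second-order sentence `φ` holds in `(M, I)` -/
def MSat {S : Type} {ar : S → ℕ} {M : Type} (I : Interp S ar M) (φ : MFm S ar 0 0) : Prop :=
  φ.Holds I Fin.elim0 Fin.elim0

/-- `A` is the spectrum of a monadic second-order sentence `φ` in finitely many relation symbols (of
arity at most `2` in the case of the clique-width) such that all models of `φ` with `n` elements have
width at most `w n` -/
def MWidthSpectrum (μ : Width) (w : ℕ → ℕ) (A : Set ℕ) : Prop :=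
  ∃ (S : Type) (_ : Finite S) (ar : S → ℕ) (φ : MFm S ar 0 0),
    (μ = Width.clique → ∀ s, ar s ≤ 2) ∧
    (∀ (n : ℕ) (I : Interp S ar (Fin n)), 1 ≤ n → MSat I φ → WidthLe μ I (w n)) ∧
    ∀ n : ℕ, n ∈ A ↔ (1 ≤ n ∧ ∃ I : Interp S ar (Fin n), MSat I φ)

end Pool.Agent.Helper29.MW
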