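import Pool.Agent.Helper29.MW.TyTW
import Pool.Agent.Helper29.TW.Sizes

/-!
# States with monadic second-order types (tree-width)
-/

set_option autoImplicit false

namespace Pool.Agent.Helper29.MW

open Pool.Agent.Helper20.Spectra Pool.Agent.Helper29.TD Pool.Agent.Helper29.TW

variable {S : Type} {ar : S → ℕ} {K : ℕ}

/-- the states -/
abbrev MStt (n : ℕ) (S : Type) (ar : S → ℕ) (q K k : ℕ) : Type :=
  Finset (Fin K) × MTy n S ar q K × Fin (5 * k + 1) ×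
    Set (Set (Fin K) × Set (Fin K) × Fin (k + 1) × Fin (5 * k + 1) × Fin (5 * k + 1))

/-- `σ` is the state of `(B, J, W)` -/
def MHasSt {n q k : ℕ} {V : Type} (B : Finset (Fin K)) (J : Interp S ar (Fin K ⊕ V)) (W : Set V)
    (σ : MStt n S ar q K k) : Prop :=
  σ.1 = B ∧ σ.2.1 = mty n q B J ∧ (σ.2.2.1 : ℕ) = W.ncard ∧
    ∀ κ : Set (Fin K) × Set (Fin K) × Fin (k + 1) × Fin (5 * k + 1) × Fin (5 * k + 1),
      κ ∈ σ.2.2.2 ↔ Sm J W κ.1 κ.2.1 κ.2.2.1 κ.2.2.2.1 κ.2.2.2.2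

variable {V V' V₁ V₂ V₁' V₂' : Type} {n q k : ℕ}

theorem exists_mst (n q : ℕ) {k : ℕ} (B : Finset (Fin K)) (J : Interp S ar (Fin K ⊕ V)) (W : Set V)
    (hW : W.ncard ≤ 5 * k) : ∃ σ : MStt n S ar q K k, MHasSt B J W σ :=
  ⟨(B, mty n q B J, ⟨W.ncard, Nat.lt_succ_of_le hW⟩,
    {κ | Sm J W κ.1 κ.2.1 κ.2.2.1 κ.2.2.2.1 κ.2.2.2.2}), rfl, rfl, rfl, fun _ => Iff.rfl⟩

private lemma sm_iff_h12 {B B' : Finset (Fin K)} {J : Interp S ar (Fin K ⊕ V)}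
    {J' : Interp S ar (Fin K ⊕ V')} {W : Set V} {W' : Set V'} {σ : MStt n S ar q K k}
    (h : MHasSt B J W σ) (h' : MHasSt B' J' W' σ) {α β : Set (Fin K)} {c a b : ℕ} (hc : c ≤ k)
    (ha : a ≤ 5 * k) (hb : b ≤ 5 * k) : Sm J W α β c a b ↔ Sm J' W' α β c a b :=
  (h.2.2.2 (α, β, ⟨c, Nat.lt_succ_of_le hc⟩, ⟨a, Nat.lt_succ_of_le ha⟩,
    ⟨b, Nat.lt_succ_of_le hb⟩)).symm.trans (h'.2.2.2 _)

private lemma jn_iff_h12 {B₁ B₂ B₁' B₂' : Finset (Fin K)}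
    {J₁ : Interp S ar (Fin K ⊕ V₁)} {J₁' : Interp S ar (Fin K ⊕ V₁')}
    {J₂ : Interp S ar (Fin K ⊕ V₂)} {J₂' : Interp S ar (Fin K ⊕ V₂')} {W₁ : Set V₁} {W₂ : Set V₂}
    {W₁' : Set V₁'} {W₂' : Set V₂'} {σ₁ σ₂ : MStt n S ar q K k} (h1 : MHasSt B₁ J₁ W₁ σ₁)
    (h1' : MHasSt B₁' J₁' W₁' σ₁) (h2 : MHasSt B₂ J₂ W₂ σ₂)
    (h2' : MHasSt B₂' J₂' W₂' σ₂) {α β : Set (Fin K)} {c a b : ℕ} (hc : c ≤ k)
    (ha : a ≤ 5 * k) (hb : b ≤ 5 * k)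
    (h : ∃ c₁ c₂ a₁ a₂ b₁ b₂ : ℕ, c₁ + c₂ = c ∧ a₁ + a₂ = a ∧
      b₁ + b₂ = b ∧ Sm J₁ W₁ α β c₁ a₁ b₁ ∧ Sm J₂ W₂ α β c₂ a₂ b₂) :
    ∃ c₁ c₂ a₁ a₂ b₁ b₂ : ℕ, c₁ + c₂ = c ∧ a₁ + a₂ = a ∧
      b₁ + b₂ = b ∧ Sm J₁' W₁' α β c₁ a₁ b₁ ∧ Sm J₂' W₂' α β c₂ a₂ b₂ := by
  obtain ⟨c₁, c₂, a₁, a₂, b₁, b₂, e1, e2, e3, s1, s2⟩ := h
  exact ⟨c₁, c₂, a₁, a₂, b₁, b₂, e1, e2, e3,
    (sm_iff_h12 h1 h1' (by omega) (by omega) (by omega)).1 s1,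
    (sm_iff_h12 h2 h2' (by omega) (by omega) (by omega)).1 s2⟩

theorem MHasSt.jn [Finite V₁] [Finite V₂] [Finite V₁'] [Finite V₂'] {B₁ B₂ B₁' B₂' : Finset (Fin K)}
    {J₁ : Interp S ar (Fin K ⊕ V₁)} {J₁' : Interp S ar (Fin K ⊕ V₁')}
    {J₂ : Interp S ar (Fin K ⊕ V₂)} {J₂' : Interp S ar (Fin K ⊕ V₂')} {W : Set (V₁ ⊕ V₂)}
    {W' : Set (V₁' ⊕ V₂')} {σ₁ σ₂ σ : MStt n S ar q K k} (h1 : MHasSt B₁ J₁ (Sum.inl ⁻¹' W) σ₁)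
    (h1' : MHasSt B₁' J₁' (Sum.inl ⁻¹' W') σ₁) (h2 : MHasSt B₂ J₂ (Sum.inr ⁻¹' W) σ₂)
    (h2' : MHasSt B₂' J₂' (Sum.inr ⁻¹' W') σ₂) (h : MHasSt (B₁ ∪ B₂) (jn J₁ J₂) W σ) :
    MHasSt (B₁' ∪ B₂') (TW.jn J₁' J₂') W' σ := by
  refine ⟨?_, ?_, ?_, fun κ => ?_⟩
  · rw [h.1, ← h1.1, ← h2.1, ← h1'.1, ← h2'.1]
  · rw [h.2.1]
    exact mty_jn n q (h1.2.1.symm.trans h1'.2.1) (h2.2.1.symm.trans h2'.2.1)
  · rw [h.2.2.1, ncard_sum W, ncard_sum W', ← h1.2.2.1, ← h2.2.2.1, ← h1'.2.2.1, ← h2'.2.2.1]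
  · have hc : (κ.2.2.1 : ℕ) ≤ k := Nat.le_of_lt_succ κ.2.2.1.2
    have ha : (κ.2.2.2.1 : ℕ) ≤ 5 * k := Nat.le_of_lt_succ κ.2.2.2.1.2
    have hb : (κ.2.2.2.2 : ℕ) ≤ 5 * k := Nat.le_of_lt_succ κ.2.2.2.2.2
    refine (h.2.2.2 κ).trans ((sm_jn _ _ _ _ _ _ _ _).trans (Iff.trans ?_
      (sm_jn _ _ _ _ _ _ _ _).symm))
    exact ⟨jn_iff_h12 h1 h1' h2 h2' hc ha hb, jn_iff_h12 h1' h1 h2' h2 hc ha hb⟩

theorem MHasSt.fg [Finite V] [Finite V'] {B B' : Finset (Fin K)} {J : Interp S ar (Fin K ⊕ V)}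
    {J' : Interp S ar (Fin K ⊕ V')} (a : Fin K) (ha : a ∈ B)
    {W : Set (Option V)} {W' : Set (Option V')}
    (hW : none ∈ W ↔ none ∈ W') {σ τ : MStt n S ar q K k} (h1 : MHasSt B J (some ⁻¹' W) σ)
    (h1' : MHasSt B' J' (some ⁻¹' W') σ) (h : MHasSt (B.erase a) (img (fg a) J) W τ) :
    MHasSt (B'.erase a) (img (TW.fg a) J') W' τ := by
  have hW' : (none ∈ W) = (none ∈ W') := propext hW
  refine ⟨?_, ?_, ?_, fun κ => ?_⟩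
  · rw [h.1, ← h1.1, ← h1'.1]
  · rw [h.2.1]
    exact mty_fg n q a ha (by rw [← h1'.1, h1.1]; exact ha) (h1.2.1.symm.trans h1'.2.1)
  · rw [h.2.2.1, ncard_option W, ncard_option W', ← h1.2.2.1, ← h1'.2.2.1, hW']
  · have hc : (κ.2.2.1 : ℕ) ≤ k := Nat.le_of_lt_succ κ.2.2.1.2
    have ha : (κ.2.2.2.1 : ℕ) ≤ 5 * k := Nat.le_of_lt_succ κ.2.2.2.1.2
    have hb : (κ.2.2.2.2 : ℕ) ≤ 5 * k := Nat.le_of_lt_succ κ.2.2.2.2.2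
    refine (h.2.2.2 κ).trans ((sm_fg _ _ _ _ _ _ _ _).trans (Iff.trans ?_
      (sm_fg _ _ _ _ _ _ _ _).symm))
    rw [hW']
    constructor
    · rintro ⟨hx, p, r, hpr, c', a', b', e1, e2, e3, s⟩
      exact ⟨hx, p, r, hpr, c', a', b', e1, e2, e3,
        (sm_iff_h12 h1 h1' (by omega) (by omega) (by omega)).1 s⟩
    · rintro ⟨hx, p, r, hpr, c', a', b', e1, e2, e3, s⟩
      exact ⟨hx, p, r, hpr, c', a', b', e1, e2, e3,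
        (sm_iff_h12 h1' h1 (by omega) (by omega) (by omega)).1 s⟩

section der

variable (n : ℕ) (S : Type) (ar : S → ℕ) (q K k : ℕ)

/-- the states of the structures without inner elements -/
def MBSt (σ : MStt n S ar q K k) : Prop :=
  ∃ (B : Finset (Fin K)) (J : Interp S ar (Fin K ⊕ Empty)) (W : Set Empty),
    (∀ (s : S) (v : Fin (ar s) → Fin K ⊕ Empty), J s v → ∀ i a, v i = Sum.inl a → a ∈ B) ∧
    MHasSt B J W σ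

/-- the states before and after a source becomes an inner element -/
def MUSt (σ τ : MStt n S ar q K k) : Prop :=
  ∃ (V : Type) (_ : Finite V) (B : Finset (Fin K)) (J : Interp S ar (Fin K ⊕ V)) (a : Fin K)
    (W : Set (Option V)), a ∈ B ∧ MHasSt B J (some ⁻¹' W) σ ∧
    MHasSt (B.erase a) (img (fg a) J) W τ

/-- the states of two structures and of the glued structure -/
def MJSt (σ₁ σ₂ σ : MStt n S ar q K k) : Prop :=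
  ∃ (V₁ V₂ : Type) (_ : Finite V₁) (_ : Finite V₂) (B₁ B₂ : Finset (Fin K))
    (J₁ : Interp S ar (Fin K ⊕ V₁)) (J₂ : Interp S ar (Fin K ⊕ V₂)) (W : Set (V₁ ⊕ V₂)),
    MHasSt B₁ J₁ (Sum.inl ⁻¹' W) σ₁ ∧ MHasSt B₂ J₂ (Sum.inr ⁻¹' W) σ₂ ∧
    MHasSt (B₁ ∪ B₂) (jn J₁ J₂) W σ

variable {n S ar q K k}

theorem mder_of_gen {B : Finset (Fin K)} {V : Type} {J : Interp S ar (Fin K ⊕ V)}
    (h : Gen S ar K B V J) (W : Set V) (σ : MStt n S ar q K k) (hσ : MHasSt B J W σ) :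
    Der (MBSt n S ar q K k) (MUSt n S ar q K k) (MJSt n S ar q K k) σ (Nat.card V) := by
  induction h generalizing σ with
  | base B J hJ =>
    have h0 : Nat.card Empty = 0 := by simp
    rw [h0]
    exact Der.base σ ⟨B, J, W, hJ, hσ⟩
  | join B₁ B₂ V₁ V₂ J₁ J₂ h₁ h₂ ih₁ ih₂ =>
    have := h₁.finite
    have := h₂.finite
    have hW : W.ncard ≤ 5 * k := by
      have h3 := hσ.2.2.1
      have h4 := σ.2.2.1.2
      omega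
    have hs := ncard_sum W
    obtain ⟨σ₁, hσ₁⟩ := exists_mst n q (k := k) B₁ J₁ (Sum.inl ⁻¹' W) (by omega)
    obtain ⟨σ₂, hσ₂⟩ := exists_mst n q (k := k) B₂ J₂ (Sum.inr ⁻¹' W) (by omega)
    rw [Nat.card_sum]
    exact Der.join σ₁ σ₂ σ _ _ ⟨V₁, V₂, inferInstance, inferInstance, B₁, B₂, J₁, J₂, W, hσ₁, hσ₂, hσ⟩
      (ih₁ _ _ hσ₁) (ih₂ _ _ hσ₂)
  | forget B V J a ha h ih =>
    have := h.finite
    have hW : W.ncard ≤ 5 * k := by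
      have h3 := hσ.2.2.1
      have h4 := σ.2.2.1.2
      omega
    have hs := ncard_option W
    obtain ⟨σ', hσ'⟩ := exists_mst n q (k := k) B J (some ⁻¹' W) (by omega)
    rw [Finite.card_option]
    exact Der.unary σ' σ _ ⟨V, inferInstance, B, J, a, W, ha, hσ', hσ⟩ (ih _ _ hσ')

theorem gen_of_mder {σ : MStt n S ar q K k} {c : ℕ}
    (h : Der (MBSt n S ar q K k) (MUSt n S ar q K k) (MJSt n S ar q K k) σ c) :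
    ∃ (B : Finset (Fin K)) (V : Type) (J : Interp S ar (Fin K ⊕ V)) (W : Set V),
      Gen S ar K B V J ∧ MHasSt B J W σ ∧ Nat.card V = c := by
  induction h with
  | base σ hb =>
    obtain ⟨B, J, W, hJ, hs⟩ := hb
    exact ⟨B, Empty, J, W, Gen.base B J hJ, hs, by simp⟩
  | unary σ τ n hU _ ih =>
    obtain ⟨B', V', J', W', hG', hs', hc'⟩ := ih
    obtain ⟨V, hfin, B, J, a, W, ha, hs, ht⟩ := hU
    have := hG'.finite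
    have hB : B' = B := hs'.1.symm.trans hs.1
    have e1 : (some ⁻¹' (some '' W' ∪ {y : Option V' | y = none ∧ none ∈ W})) = W' := by
      ext x
      simp
    have e2 : none ∈ W ↔ none ∈ (some '' W' ∪ {y : Option V' | y = none ∧ none ∈ W}) := by
      simp
    refine ⟨B'.erase a, Option V', img (fg a) J', some '' W' ∪ {y : Option V' | y = none ∧ none ∈ W},
      Gen.forget B' V' J' a (by rw [hB]; exact ha) hG', MHasSt.fg a ha e2 hs (by rw [e1]; exact hs') ht, ?_⟩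
    rw [Finite.card_option, hc']
  | join σ₁ σ₂ σ n₁ n₂ hJ _ _ ih₁ ih₂ =>
    obtain ⟨B₁', V₁', J₁', W₁', hG₁, hs₁, hc₁⟩ := ih₁
    obtain ⟨B₂', V₂', J₂', W₂', hG₂, hs₂, hc₂⟩ := ih₂
    obtain ⟨V₁, V₂, hf₁, hf₂, B₁, B₂, J₁, J₂, W, ht₁, ht₂, ht⟩ := hJ
    have := hG₁.finite
    have := hG₂.finite
    have e1 : (Sum.inl ⁻¹' (Sum.inl '' W₁' ∪ Sum.inr '' W₂' : Set (V₁' ⊕ V₂'))) = W₁' := by
      ext x
      simp
    have e2 : (Sum.inr ⁻¹' (Sum.inl '' W₁' ∪ Sum.inr '' W₂' : Set (V₁' ⊕ V₂'))) = W₂' := by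
      ext x
      simp
    refine ⟨B₁' ∪ B₂', V₁' ⊕ V₂', jn J₁' J₂', Sum.inl '' W₁' ∪ Sum.inr '' W₂',
      Gen.join B₁' B₂' V₁' V₂' J₁' J₂' hG₁ hG₂,
      MHasSt.jn ht₁ (by rw [e1]; exact hs₁) ht₂ (by rw [e2]; exact hs₂) ht, ?_⟩
    rw [Nat.card_sum, hc₁, hc₂]

end der

end Pool.Agent.Helper29.MW
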